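import Pool.Agent.Helper37.SC.Kit

/-! # H2: the coding poset -/

namespace Pool.Agent.Helper37.SC

universe u

open ZFSet
open Pool.Agent.Helper66.SC (Fml Sat IsZF Cls sat_rn mem_Pow img mem_img tc CardLe WO LSeq SL ZZ
  kap TT JJ FP PP PPlo PPhi oz nz bta ST_K1 ST_F2 Homog ST_H2)
open Pool.Agent.Helper22.SC

variable {C : Cls.{u}} {α : Type (u + 1)} [Ctx.{u} α]

section basic

variable {M : Set ZFSet.{u}} {L : ℕ → Ordinal.{u}}

/-- the supremum of the sequence -/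
theorem lt_sup (L : ℕ → Ordinal.{u}) (hL : StrictMono L) (n : ℕ) : L n < ⨆ n, L n :=
  lt_of_lt_of_le (hL (Nat.lt_succ_self n)) (Ordinal.le_iSup L (n + 1))

theorem lt_sup_iff {L : ℕ → Ordinal.{u}} {o : Ordinal.{u}} :
    o < (⨆ n, L n) ↔ ∃ n, o < L n := Ordinal.lt_iSup_iff

theorem om_lt (hL : LSeq M L) (n : ℕ) : Ordinal.omega0 < L n := (hL.sl n).2.1

theorem bta_lt (hL : LSeq M L) (n : ℕ) : bta L n < L n := by
  cases n with
  | zero => exact om_lt hL 0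
  | succ n => exact hL.mono (Nat.lt_succ_self n)

theorem om_le_bta (hL : LSeq M L) (n : ℕ) : Ordinal.omega0 ≤ bta L n := by
  cases n with
  | zero => exact le_rfl
  | succ n => exact (om_lt hL n).le

theorem oz_L_mem (hL : LSeq M L) (n : ℕ) : oz (L n) ∈ M := (hL.sl n).1

/-- the coded sequence -/
noncomputable def seq (hL : LSeq M L) : ZFSet.{u} := hL.mem.choose

theorem seq_mem (hL : LSeq M L) : seq hL ∈ M := hL.mem.choose_spec.1

theorem mem_seq (hL : LSeq M L) {x : ZFSet.{u}} :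
    x ∈ seq hL ↔ ∃ n : ℕ, x = ZFSet.pair (nz n) (oz (L n)) := hL.mem.choose_spec.2 x

theorem app_seq (hL : LSeq M L) (n : ℕ) : app (seq hL) (nz n) = oz (L n) := by
  refine app_eq ((mem_seq hL).2 ⟨n, rfl⟩) ?_
  intro z hz
  obtain ⟨m, hm⟩ := (mem_seq hL).1 hz
  obtain ⟨h1, h2⟩ := pair_inj.1 hm
  rw [nz_inj h1, h2]

theorem oz_sup (hL : LSeq M L) : oz (⨆ n, L n) = ⋃₀ (ran (seq hL)) := by
  ext x
  rw [mem_oz, mem_sUnion]
  constructor
  · rintro ⟨a, ha, rfl⟩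
    obtain ⟨n, hn⟩ := lt_sup_iff.1 ha
    exact ⟨oz (L n), mem_ran.2 ⟨nz n, (mem_seq hL).2 ⟨n, rfl⟩⟩, oz_mem_oz.2 hn⟩
  · rintro ⟨w, hw, hx⟩
    obtain ⟨y, hy⟩ := mem_ran.1 hw
    obtain ⟨n, hn⟩ := (mem_seq hL).1 hy
    obtain ⟨-, rfl⟩ := pair_inj.1 hn
    obtain ⟨a, ha, rfl⟩ := mem_oz.1 hx
    exact ⟨a, lt_sup_iff.2 ⟨n, ha⟩, rfl⟩

theorem oz_sup_mem {A : Set ZFSet.{u}} (hM : IsZF M A) (hL : LSeq M L) :
    oz (⨆ n, L n) ∈ M := by
  rw [oz_sup hL]
  exact in_zfset.1 (U.closed (C := CA) (f := fun _ _ (p : ZFSet.{u}) => (⋃₀ (ran p) : ZFSet.{u}))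
    (by apply_rules (transparency := .reducible) (maxDepth := 400) using is_poly)
    hM (a := seq hL) (by simp [seq_mem hL]))

open Classical in
/-- the function `n ↦ β_n` -/
noncomputable def btf (s m : ZFSet.{u}) : ZFSet.{u} :=
  if m = ∅ then ZFSet.omega else app s (⋃₀ m)

theorem U.btf [ZCls C] {f g : Set ZFSet.{u} → Set ZFSet.{u} → α → ZFSet.{u}} (hf : U C f)
    (hg : U C g) : U C (fun N A a => SC.btf (f N A a) (g N A a)) := by
  refine U.app2 (h := fun _ _ x y => SC.btf x y) ?_ hf hg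
  unfold SC.btf
  refine U.ite (R := fun N A (p : ZFSet.{u} × ZFSet.{u}) => p.2 = ∅) ?_ ?_ ?_
  all_goals apply_rules (transparency := .reducible) (maxDepth := 400) using is_poly

attribute [is_poly] U.btf

theorem nz_succ (n : ℕ) : (nz (n + 1) : ZFSet.{u}) = insert (nz n) (nz n) := nat_succ n

theorem sUnion_nz_succ (n : ℕ) : (⋃₀ (nz (n + 1)) : ZFSet.{u}) = nz n := sUnion_nat_succ n

theorem nz_zero : (nz 0 : ZFSet.{u}) = ∅ := nat_zero

theorem btf_nz (hL : LSeq M L) (n : ℕ) : btf (seq hL) (nz n) = oz (bta L n) := by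
  unfold btf
  cases n with
  | zero =>
    rw [if_pos nz_zero]
    exact omega_eq
  | succ n =>
    rw [if_neg, sUnion_nz_succ, app_seq]
    · rfl
    · intro h
      have h1 : (nz n : ZFSet.{u}) ∈ (nz (n + 1) : ZFSet.{u}) := by
        rw [nz_succ]; exact mem_insert _ _
      rw [h] at h1
      exact notMem_empty _ h1

/-- the function `n ↦ Z_n` -/
noncomputable def zzf (M : Set ZFSet.{u}) (s m : ZFSet.{u}) : ZFSet.{u} :=
  Helper66.SC.Pow M (ZFSet.omega.prod (btf s m))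

theorem U.zzf [ZCls C] {f g : Set ZFSet.{u} → Set ZFSet.{u} → α → ZFSet.{u}} (hf : U C f)
    (hg : U C g) : U C (fun N A a => SC.zzf N (f N A a) (g N A a)) := by
  refine U.app2 (h := fun N _ x y => SC.zzf N x y) ?_ hf hg
  unfold SC.zzf
  apply_rules (transparency := .reducible) (maxDepth := 400) using is_poly

attribute [is_poly] U.zzf

theorem zzf_nz (hL : LSeq M L) (n : ℕ) : zzf M (seq hL) (nz n) = ZZ M L n := by
  unfold zzf ZZ
  rw [btf_nz]

theorem ZZ_mem {A : Set ZFSet.{u}} (hM : IsZF M A) (hL : LSeq M L) (n : ℕ) : ZZ M L n ∈ M := by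
  rw [← zzf_nz hL]
  exact in_zfset.1 (U.closed (C := CA) (f := fun N _ (p : ZFSet.{u} × ZFSet.{u}) =>
    zzf N p.1 p.2)
    (by apply_rules (transparency := .reducible) (maxDepth := 400) using is_poly)
    hM (a := (seq hL, nz n)) (by simp [seq_mem hL, hM.trans _ hM.omega _ (nz_mem_om n)]))

/-- `Z_n` injects into an ordinal less than `λ_n` -/
theorem ZZ_small {A : Set ZFSet.{u}} (hM : IsZF M A) (hL : LSeq M L) (n : ℕ) :
    ∃ c < L n, CardLe M (ZZ M L n) (oz c) := by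
  obtain ⟨h1, h2, h3, h4, h5, h6⟩ := hL.sl n
  obtain ⟨c, hc, h7⟩ := h5 _ (bta_lt hL n)
  obtain ⟨d, hd, h8⟩ := h4 c hc
  refine ⟨d, hd, ?_⟩
  have hb : oz (bta L n) ∈ M := oz_of_le hM h1 (bta_lt hL n).le
  have hom : (ZFSet.omega : ZFSet.{u}) ⊆ oz (bta L n) := by
    rw [omega_eq]
    exact oz_sub_oz.2 (om_le_bta hL n)
  have hp : ∀ x ∈ M, ∀ y ∈ M, ZFSet.prod x y ∈ M := fun x hx y hy =>
    in_zfset.1 ((U.prod (C := CA) (U.id (α := ZFSet.{u} × ZFSet.{u})).fst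
      U.id.snd).closed hM (a := (x, y)) (by simp [hx, hy]))
  have h9 : CardLe M (ZFSet.omega.prod (oz (bta L n))) (oz c) := by
    refine cardLe_trans hM (hp _ hM.omega _ hb) ?_ h7
    exact cardLe_prod hM hM.omega hb (cardLe_of_subset hM hM.omega hom)
      (cardLe_of_subset hM hb subset_rfl)
  exact cardLe_trans hM (ZZ_mem hM hL n) (cardLe_pow hM (hp _ hM.omega _ hb) h9) h8

/-- Facts on `κ_n`. -/
theorem kap_facts {A : Set ZFSet.{u}} (hM : IsZF M A) (hL : LSeq M L) (n : ℕ) :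
    kap M L n < L n ∧ ¬ CardLe M (oz (kap M L n)) (ZZ M L n) := by
  obtain ⟨c, hc, h1⟩ := ZZ_small hM hL n
  obtain ⟨h2, h3, h4, h5, h6, h7⟩ := hL.sl n
  obtain ⟨d, hd, h8⟩ := h5 c hc
  have hcM : oz c ∈ M := oz_of_le hM h2 hc.le
  have hdM : oz d ∈ M := oz_of_le hM h2 hd.le
  have h9 : ¬ CardLe M (oz d) (ZZ M L n) := by
    intro h
    refine not_cardLe_pow hM hcM ?_
    have hP : Helper66.SC.Pow M (oz c) ∈ M := in_zfset.1 ((U.pow (C := CA)
      (U.id (α := ZFSet.{u}))).closed hM (a := oz c) (by simp [hcM]))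
    exact cardLe_trans hM hP h8 (cardLe_trans hM hdM h h1)
  have h10 : kap M L n ≤ d := csInf_le' h9
  refine ⟨lt_of_le_of_lt h10 hd, ?_⟩
  exact csInf_mem (s := {o | ¬ CardLe M (oz o) (ZZ M L n)}) ⟨d, h9⟩

/-- the ordinals below the supremum injecting into `Z_n` are those less than `κ_n`. -/
theorem oz_kap {A : Set ZFSet.{u}} (hM : IsZF M A) (hL : LSeq M L) (n : ℕ) :
    oz (kap M L n) = (oz (⨆ n, L n)).sep (fun x => CardLe M x (ZZ M L n)) := by
  obtain ⟨h1, h2⟩ := kap_facts hM hL n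
  ext x
  rw [mem_sep, mem_oz, mem_oz]
  constructor
  · rintro ⟨a, ha, rfl⟩
    refine ⟨⟨a, ha.trans (h1.trans (lt_sup L hL.mono n)), rfl⟩, ?_⟩
    by_contra h
    exact absurd (csInf_le' (s := {o | ¬ CardLe M (oz o) (ZZ M L n)}) h) (not_le.2 ha)
  · rintro ⟨⟨a, ha, rfl⟩, h⟩
    refine ⟨a, ?_, rfl⟩
    by_contra h3
    refine h2 (cardLe_sub hM ?_ (oz_sub_oz.2 (not_lt.1 h3)) h)
    exact oz_of_le hM (oz_L_mem hL n) h1.le

/-- the function `n ↦ κ_n` -/
noncomputable def kpf (M : Set ZFSet.{u}) (s m : ZFSet.{u}) : ZFSet.{u} :=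
  ((⋃₀ (ran s) : ZFSet.{u})).sep (fun x => CardLe M x (zzf M s m))

theorem U.kpf [ZCls C] {f g : Set ZFSet.{u} → Set ZFSet.{u} → α → ZFSet.{u}} (hf : U C f)
    (hg : U C g) : U C (fun N A a => SC.kpf N (f N A a) (g N A a)) := by
  refine U.app2 (h := fun N _ x y => SC.kpf N x y) ?_ hf hg
  unfold SC.kpf
  apply_rules (transparency := .reducible) (maxDepth := 400) using is_poly

attribute [is_poly] U.kpf

theorem kpf_nz {A : Set ZFSet.{u}} (hM : IsZF M A) (hL : LSeq M L) (n : ℕ) :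
    kpf M (seq hL) (nz n) = oz (kap M L n) := by
  unfold kpf
  rw [oz_kap hM hL, zzf_nz, oz_sup hL]

theorem TT_eq {A : Set ZFSet.{u}} (hM : IsZF M A) (hL : LSeq M L) {r : ZFSet.{u}} :
    TT M L r = ((ZFSet.omega.prod (⋃₀ (ran (seq hL)))).prod (⋃₀ (ran (seq hL)))).sep
      (fun x => ∃ m ∈ (ZFSet.omega : ZFSet.{u}), m ∈ r ∧ pfst (pfst x) = m ∧
        psnd (pfst x) ∈ kpf M (seq hL) m ∧ psnd x ∈ app (seq hL) m) := by
  unfold TT
  rw [← oz_sup hL]
  ext x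
  rw [mem_sep, mem_sep]
  refine and_congr_right (fun hx => ?_)
  constructor
  · rintro ⟨n, ξ, η, h1, h2, h3, rfl⟩
    refine ⟨nz n, nz_mem_om n, h1, by simp, ?_, ?_⟩
    · rw [kpf_nz hM hL]
      simpa using oz_mem_oz.2 h2
    · rw [app_seq]
      simpa using oz_mem_oz.2 h3
  · rintro ⟨m, hm, h1, h2, h3, h4⟩
    obtain ⟨n, rfl⟩ := mem_om.1 hm
    rw [kpf_nz hM hL] at h3
    rw [app_seq] at h4
    obtain ⟨ξ, hξ, h5⟩ := mem_oz.1 h3
    obtain ⟨η, hη, h6⟩ := mem_oz.1 h4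
    refine ⟨n, ξ, η, h1, hξ, hη, ?_⟩
    obtain ⟨a, ha, b, hb, rfl⟩ := mem_prod.1 hx
    obtain ⟨c, hc, d, hd, rfl⟩ := mem_prod.1 ha
    simp only [pfst_pair, psnd_pair] at h2 h5 h6
    rw [h2, h5, h6]

theorem TT_mem {A : Set ZFSet.{u}} (hM : IsZF M A) (hL : LSeq M L) {r : ZFSet.{u}} (hr : r ∈ M) :
    TT M L r ∈ M := by
  rw [TT_eq hM hL]
  exact in_zfset.1 (U.closed (C := CA) (f := fun N _ (p : ZFSet.{u} × ZFSet.{u}) =>
    ((ZFSet.omega.prod (⋃₀ (ran p.1))).prod (⋃₀ (ran p.1))).sep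
      (fun x => ∃ m ∈ (ZFSet.omega : ZFSet.{u}), m ∈ p.2 ∧ pfst (pfst x) = m ∧
        psnd (pfst x) ∈ kpf N p.1 m ∧ psnd x ∈ app p.1 m))
    (by apply_rules (transparency := .reducible) (maxDepth := 400) using is_poly)
    hM (a := (seq hL, r)) (by simp [seq_mem hL, hr]))

theorem JJ_eq (hL : LSeq M L) :
    JJ M L = (Helper66.SC.Pow M (ZFSet.omega.prod (⋃₀ (ran (seq hL))))).sep
      (fun d => ∀ m ∈ (ZFSet.omega : ZFSet.{u}), CardLe M
        ((⋃₀ (ran (seq hL)) : ZFSet.{u}).sep (fun ξ => ZFSet.pair m ξ ∈ d))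
          (zzf M (seq hL) m)) := by
  unfold JJ
  rw [← oz_sup hL]
  ext x
  rw [mem_sep, mem_sep]
  refine and_congr_right (fun hx => ?_)
  constructor
  · intro h m hm
    obtain ⟨n, rfl⟩ := mem_om.1 hm
    rw [zzf_nz]
    exact h n
  · intro h n
    have := h (nz n) (nz_mem_om n)
    rwa [zzf_nz] at this

theorem JJ_mem {A : Set ZFSet.{u}} (hM : IsZF M A) (hL : LSeq M L) : JJ M L ∈ M := by
  rw [JJ_eq hL]
  exact in_zfset.1 (U.closed (C := CA) (f := fun N _ (p : ZFSet.{u}) =>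
    (Helper66.SC.Pow N (ZFSet.omega.prod (⋃₀ (ran p)))).sep
      (fun d => ∀ m ∈ (ZFSet.omega : ZFSet.{u}), CardLe N
        ((⋃₀ (ran p) : ZFSet.{u}).sep (fun ξ => ZFSet.pair m ξ ∈ d))
          (zzf N p m)))
    (by apply_rules (transparency := .reducible) (maxDepth := 400) using is_poly)
    hM (a := seq hL) (by simp [seq_mem hL]))

/-- shift of a subset of `ω × β` -/
noncomputable def shf (x : ZFSet.{u}) : ZFSet.{u} :=
  img x (fun z => ZFSet.pair (insert (pfst z) (pfst z)) (psnd z))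

theorem U.shf [ZCls C] {f : Set ZFSet.{u} → Set ZFSet.{u} → α → ZFSet.{u}} (hf : U C f) :
    U C (fun N A a => SC.shf (f N A a)) := by
  refine U.app1 (h := fun _ _ x => SC.shf x) ?_ hf
  unfold SC.shf
  apply_rules (transparency := .reducible) (maxDepth := 400) using is_poly

attribute [is_poly] U.shf

theorem pair_mem_shf {x : ZFSet.{u}} {o : Ordinal.{u}} (hx : x ⊆ ZFSet.omega.prod (oz o)) {n : ℕ}
    {y : ZFSet.{u}} : ZFSet.pair (nz (n + 1)) y ∈ shf x ↔ ZFSet.pair (nz n) y ∈ x := by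
  unfold shf
  rw [mem_img]
  constructor
  · rintro ⟨z, hz, h⟩
    obtain ⟨a, ha, b, hb, rfl⟩ := mem_prod.1 (hx hz)
    obtain ⟨m, rfl⟩ := mem_om.1 ha
    simp only [pfst_pair, psnd_pair] at h
    rw [← nz_succ] at h
    obtain ⟨h1, h2⟩ := pair_inj.1 h
    have h3 : m = n := by have := nz_inj h1; omega
    rw [← h3, ← h2]
    exact hz
  · intro h
    refine ⟨_, h, ?_⟩
    simp only [pfst_pair, psnd_pair]
    rw [nz_succ]

theorem zero_notMem_shf {x y : ZFSet.{u}} : ZFSet.pair ∅ y ∉ shf x := by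
  unfold shf
  rw [mem_img]
  rintro ⟨z, hz, h⟩
  have h1 := (pair_inj.1 h).1
  have h2 : pfst z ∈ (insert (pfst z) (pfst z) : ZFSet.{u}) := mem_insert _ _
  rw [h1] at h2
  exact notMem_empty _ h2

theorem shf_sub {x : ZFSet.{u}} {o : Ordinal.{u}} (hx : x ⊆ ZFSet.omega.prod (oz o)) :
    shf x ⊆ ZFSet.omega.prod (oz o) := by
  intro w hw
  obtain ⟨z, hz, rfl⟩ := mem_img.1 hw
  obtain ⟨a, ha, b, hb, rfl⟩ := mem_prod.1 (hx hz)
  obtain ⟨m, rfl⟩ := mem_om.1 ha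
  simp only [pfst_pair, psnd_pair]
  rw [← nz_succ]
  exact pair_mem_prod.2 ⟨nz_mem_om _, hb⟩

theorem shf_inj {x y : ZFSet.{u}} {o : Ordinal.{u}} (hx : x ⊆ ZFSet.omega.prod (oz o))
    (hy : y ⊆ ZFSet.omega.prod (oz o)) {E F : ZFSet.{u}} (hE : E ⊆ {ZFSet.pair ∅ ∅})
    (hF : F ⊆ {ZFSet.pair ∅ ∅}) (h : shf x ∪ E = shf y ∪ F) : x = y ∧ E = F := by
  have key : ∀ {x y E F : ZFSet.{u}}, x ⊆ ZFSet.omega.prod (oz o) → y ⊆ ZFSet.omega.prod (oz o) →
      E ⊆ {ZFSet.pair ∅ ∅} → F ⊆ {ZFSet.pair ∅ ∅} → shf x ∪ E = shf y ∪ F → x ⊆ y ∧ E ⊆ F := by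
    intro x y E F hx hy hE hF h
    constructor
    · intro z hz
      obtain ⟨a, ha, b, hb, rfl⟩ := mem_prod.1 (hx hz)
      obtain ⟨m, rfl⟩ := mem_om.1 ha
      have h1 : ZFSet.pair (nz (m + 1)) b ∈ shf y ∪ F := by
        rw [← h, mem_union]
        exact Or.inl ((pair_mem_shf hx).2 hz)
      rw [mem_union] at h1
      rcases h1 with h1 | h1
      · exact (pair_mem_shf hy).1 h1
      · have h2 := mem_singleton.1 (hF h1)
        have h3 := (pair_inj.1 h2).1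
        have h4 : (nz m : ZFSet.{u}) ∈ (nz (m + 1) : ZFSet.{u}) := by
          rw [nz_succ]; exact mem_insert _ _
        rw [h3] at h4
        exact absurd h4 (notMem_empty _)
    · intro z hz
      have h0 := mem_singleton.1 (hE hz)
      have h1 : z ∈ shf y ∪ F := by
        rw [← h, mem_union]
        exact Or.inr hz
      rw [mem_union] at h1
      rcases h1 with h1 | h1
      · rw [h0] at h1
        exact absurd h1 zero_notMem_shf
      · exact h1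
  obtain ⟨h1, h2⟩ := key hx hy hE hF h
  obtain ⟨h3, h4⟩ := key hy hx hF hE h.symm
  exact ⟨subset_antisymm h1 h3, subset_antisymm h2 h4⟩

open Classical in
/-- Unions of two sets which inject into `P(ω × β)`. -/
theorem cardLe_union_ZZ {A : Set ZFSet.{u}} (hM : IsZF M A) {o : Ordinal.{u}} (_ho : oz o ∈ M)
    (h0 : 0 < o) {x y : ZFSet.{u}} (hx : x ∈ M) (hy : y ∈ M)
    (h : CardLe M x (Helper66.SC.Pow M (ZFSet.omega.prod (oz o))))
    (h' : CardLe M y (Helper66.SC.Pow M (ZFSet.omega.prod (oz o)))) :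
    CardLe M (x ∪ y) (Helper66.SC.Pow M (ZFSet.omega.prod (oz o))) := by
  obtain ⟨f, hf, -, h2, h3⟩ := app_of_cardLe h
  obtain ⟨g, hg, -, k2, k3⟩ := app_of_cardLe h'
  have hxy : x ∪ y ∈ M := in_zfset.1 ((U.union (C := CA) (U.id (α := ZFSet.{u} × ZFSet.{u})).fst
    U.id.snd).closed hM (a := (x, y)) (by simp [hx, hy]))
  have hUc : U CA (fun _ _ (p : (ZFSet.{u} × (ZFSet.{u} × ZFSet.{u})) × ZFSet.{u}) =>
      if p.2 ∈ p.1.1 then shf (app p.1.2.1 p.2) ∪ ∅ else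
        shf (app p.1.2.2 p.2) ∪ {ZFSet.pair ∅ ∅}) := by
    refine U.ite (R := fun _ _ (p : (ZFSet.{u} × (ZFSet.{u} × ZFSet.{u})) × ZFSet.{u}) =>
      p.2 ∈ p.1.1) ?_ ?_ ?_
    all_goals apply_rules (transparency := .reducible) (maxDepth := 400) using is_poly
  have h2' : ∀ t ∈ x, app f t ⊆ ZFSet.omega.prod (oz o) := fun t ht => (mem_Pow.1 (h2 t ht)).2
  have k2' : ∀ t ∈ y, app g t ⊆ ZFSet.omega.prod (oz o) := fun t ht => (mem_Pow.1 (k2 t ht)).2
  have hsub : ({ZFSet.pair ∅ ∅} : ZFSet.{u}) ⊆ ZFSet.omega.prod (oz o) := by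
    intro z hz
    rw [mem_singleton.1 hz]
    refine pair_mem_prod.2 ⟨omega_zero, ?_⟩
    have : (∅ : ZFSet.{u}) = oz 0 := by simp
    rw [this]
    exact oz_mem_oz.2 h0
  refine cardLe_of_u (C := CA) (h := fun _ _ (p : ZFSet.{u} × (ZFSet.{u} × ZFSet.{u})) t =>
      if t ∈ p.1 then shf (app p.2.1 t) ∪ ∅ else shf (app p.2.2 t) ∪ {ZFSet.pair ∅ ∅}) hUc hM
    (p := (x, (f, g))) (by simp [hf, hg, hx]) hxy ?_ ?_
  · intro t ht
    have hin : In M (((x, (f, g)), t) : (ZFSet.{u} × (ZFSet.{u} × ZFSet.{u})) × ZFSet.{u}) := by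
      simp [hf, hg, hx, hM.trans _ hxy _ ht]
    refine mem_Pow.2 ⟨in_zfset.1 (hUc.closed hM hin), ?_⟩
    simp only
    split_ifs with h1
    · intro z hz
      rw [mem_union] at hz
      rcases hz with hz | hz
      · exact shf_sub (h2' t h1) hz
      · exact absurd hz (notMem_empty _)
    · intro z hz
      have h4 : t ∈ y := (mem_union.1 ht).resolve_left h1
      rw [mem_union] at hz
      rcases hz with hz | hz
      · exact shf_sub (k2' t h4) hz
      · exact hsub hz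
  · intro t ht s hs hts
    simp only at hts
    have hne : (∅ : ZFSet.{u}) ≠ {ZFSet.pair ∅ ∅} := by
      intro h
      have : ZFSet.pair ∅ ∅ ∈ ({ZFSet.pair ∅ ∅} : ZFSet.{u}) := mem_singleton.2 rfl
      rw [← h] at this
      exact notMem_empty _ this
    have he : (∅ : ZFSet.{u}) ⊆ {ZFSet.pair ∅ ∅} := fun z hz => absurd hz (notMem_empty _)
    by_cases h5 : t ∈ x
    · by_cases h6 : s ∈ x
      · rw [if_pos h5, if_pos h6] at hts
        exact h3 t h5 s h6 (shf_inj (h2' t h5) (h2' s h6) he he hts).1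
      · have h8 : s ∈ y := (mem_union.1 hs).resolve_left h6
        rw [if_pos h5, if_neg h6] at hts
        exact absurd (shf_inj (h2' t h5) (k2' s h8) he subset_rfl hts).2 hne
    · have h7 : t ∈ y := (mem_union.1 ht).resolve_left h5
      by_cases h6 : s ∈ x
      · rw [if_neg h5, if_pos h6] at hts
        exact absurd (shf_inj (k2' t h7) (h2' s h6) subset_rfl he hts).2.symm hne
      · have h8 : s ∈ y := (mem_union.1 hs).resolve_left h6
        rw [if_neg h5, if_neg h6] at hts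
        exact k3 t h7 s h8 (shf_inj (k2' t h7) (k2' s h8) subset_rfl subset_rfl hts).1

theorem oz_bta_mem {A : Set ZFSet.{u}} (hM : IsZF M A) (hL : LSeq M L) (n : ℕ) :
    oz (bta L n) ∈ M := oz_of_le hM (oz_L_mem hL n) (bta_lt hL n).le

theorem bta_pos (hL : LSeq M L) (n : ℕ) : 0 < bta L n :=
  lt_of_lt_of_le Ordinal.omega0_pos (om_le_bta hL n)

/-- The ideal of domains is closed under unions. -/
theorem JJ_union {A : Set ZFSet.{u}} (hM : IsZF M A) (hL : LSeq M L) :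
    ∀ a ∈ JJ M L, ∀ b ∈ JJ M L, a ∪ b ∈ JJ M L := by
  intro a ha b hb
  unfold JJ at ha hb ⊢
  rw [mem_sep, mem_Pow] at ha hb ⊢
  obtain ⟨⟨ha1, ha2⟩, ha3⟩ := ha
  obtain ⟨⟨hb1, hb2⟩, hb3⟩ := hb
  have hab : a ∪ b ∈ M := in_zfset.1 ((U.union (C := CA) (U.id (α := ZFSet.{u} × ZFSet.{u})).fst
    U.id.snd).closed hM (a := (a, b)) (by simp [ha1, hb1]))
  refine ⟨⟨hab, ?_⟩, ?_⟩
  · intro z hz
    rw [mem_union] at hz
    rcases hz with hz | hz
    · exact ha2 hz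
    · exact hb2 hz
  · intro n
    have hsec : ∀ d ∈ M, (oz (⨆ n, L n)).sep (fun ξ => ZFSet.pair (nz n) ξ ∈ d) ∈ M := by
      intro d hd
      exact in_zfset.1 (U.closed (C := CA) (f := fun _ _
        (p : (ZFSet.{u} × ZFSet.{u}) × ZFSet.{u}) =>
        p.1.1.sep (fun ξ => ZFSet.pair p.1.2 ξ ∈ p.2))
        (by apply_rules (transparency := .reducible) (maxDepth := 400) using is_poly)
        hM (a := ((oz (⨆ n, L n), nz n), d))
        (by simp [oz_sup_mem hM hL, hd, hM.trans _ hM.omega _ (nz_mem_om n)]))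
    have := cardLe_union_ZZ hM (oz_bta_mem hM hL n) (bta_pos hL n) (hsec a ha1) (hsec b hb1)
      (ha3 n) (hb3 n)
    have he : (oz (⨆ n, L n)).sep (fun ξ => ZFSet.pair (nz n) ξ ∈ a ∪ b) =
        (oz (⨆ n, L n)).sep (fun ξ => ZFSet.pair (nz n) ξ ∈ a) ∪
          (oz (⨆ n, L n)).sep (fun ξ => ZFSet.pair (nz n) ξ ∈ b) := by
      ext ξ
      simp only [mem_sep, mem_union]
      tauto
    rw [he]
    exact this

theorem empty_mem_JJ {A : Set ZFSet.{u}} (hM : IsZF M A) (L : ℕ → Ordinal.{u}) :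
    ∅ ∈ JJ M L := by
  unfold JJ
  rw [mem_sep, mem_Pow]
  refine ⟨⟨hM.empty_mem, fun z hz => absurd hz (notMem_empty _)⟩, ?_⟩
  intro n
  have : (oz (⨆ n, L n)).sep (fun ξ => ZFSet.pair (nz n) ξ ∈ (∅ : ZFSet.{u})) = ∅ := by
    ext z
    simp
  rw [this]
  exact cardLe_of_subset hM hM.empty_mem (fun z hz => absurd hz (notMem_empty _))

theorem empty_mem_FP {A : Set ZFSet.{u}} (hM : IsZF M A) {T J : ZFSet.{u}} (hJ : ∅ ∈ J) :
    ∅ ∈ FP M T J := by
  unfold FP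
  rw [mem_sep, mem_Pow]
  refine ⟨⟨hM.empty_mem, fun z hz => absurd hz (notMem_empty _)⟩, ?_, ?_, ?_⟩
  · intro x y z h
    exact absurd h (notMem_empty _)
  · intro s hs
    exact absurd hs (notMem_empty _)
  · refine ⟨∅, hJ, fun x => ?_⟩
    constructor
    · intro h
      exact absurd h (notMem_empty _)
    · rintro ⟨y, h⟩
      exact absurd h (notMem_empty _)

end basic

/-- **H2**, from F2. -/
theorem st_H2' (hF2 : ST_F2.{u}) : ST_H2.{u} := by
  intro M L r hM _ hL hr _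
  obtain ⟨h1, h2⟩ := hF2 M ∅ (TT M L r) (JJ M L) hM (TT_mem hM hL hr) (JJ_mem hM hL)
    (JJ_union hM hL)
  exact ⟨h1, empty_mem_FP hM (empty_mem_JJ hM L), h2, kap_facts hM hL⟩

end Pool.Agent.Helper37.SC
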