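import Pool.Agent.Helper37.SC.H2
import Pool.Agent.Helper83.SC.F2

namespace Pool.Agent.Helper37.SC

universe u

open Pool.Agent.Helper66.SC (ST_H2)

/-- **H2**. -/
theorem st_H2 : ST_H2.{u} := st_H2' Pool.Agent.Helper83.SC.st_F2

end Pool.Agent.Helper37.SC
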