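import Pool.Agent.Helper22.SC.Conv

/-! # Small kit: injections from uniformly definable functions, the coding poset -/

namespace Pool.Agent.Helper37.SC

universe u

open ZFSet
open Pool.Agent.Helper66.SC (Fml Sat IsZF Cls sat_rn mem_Pow img mem_img tc CardLe WO LSeq SL ZZ
  kap TT JJ FP PP PPlo PPhi oz nz bta ST_K1 ST_F2 Homog)
open Pool.Agent.Helper22.SC

variable {C : Cls.{u}} {α : Type (u + 1)} [Ctx.{u} α]

/-- the class of transitive models of ZF without predicate -/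
def C0 : Cls.{u} := fun M A => IsZF M A ∧ A = ∅

instance : ZCls.{u} C0 := ⟨fun h => h.1⟩

/-- shorthand: the class of all transitive models -/
abbrev CA : Cls.{u} := fun M A => IsZF M A

theorem oz_mem_oz {a b : Ordinal.{u}} : oz a ∈ oz b ↔ a < b :=
  Ordinal.toZFSet_mem_toZFSet_iff

theorem oz_inj {a b : Ordinal.{u}} (h : oz a = oz b) : a = b := Ordinal.toZFSet_injective h

theorem mem_oz {x : ZFSet.{u}} {b : Ordinal.{u}} : x ∈ oz b ↔ ∃ a < b, x = oz a := by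
  rw [Ordinal.mem_toZFSet_iff]
  constructor
  · rintro ⟨a, h, rfl⟩; exact ⟨a, h, rfl⟩
  · rintro ⟨a, h, rfl⟩; exact ⟨a, h, rfl⟩

theorem oz_sub_oz {a b : Ordinal.{u}} : oz a ⊆ oz b ↔ a ≤ b :=
  Ordinal.toZFSet_subset_toZFSet_iff

theorem oz_of_le {M A : Set ZFSet.{u}} (h : IsZF M A) {a o : Ordinal.{u}} (ho : oz o ∈ M)
    (hao : a ≤ o) : oz a ∈ M := by
  rcases hao.eq_or_lt with rfl | hlt
  · exact ho
  · exact h.trans _ ho _ (oz_mem_oz.2 hlt)

theorem nz_inj {m n : ℕ} (h : (nz m : ZFSet.{u}) = nz n) : m = n := by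
  have := oz_inj h
  exact_mod_cast this

theorem mem_om {x : ZFSet.{u}} : x ∈ omega ↔ ∃ n : ℕ, x = nz n := mem_omega_iff'

theorem nz_mem_om (n : ℕ) : (nz n : ZFSet.{u}) ∈ omega := mem_om.2 ⟨n, rfl⟩

/-- A uniformly definable injection gives `CardLe`. -/
theorem cardLe_of_u [ZCls C] {h : Set ZFSet.{u} → Set ZFSet.{u} → α → ZFSet.{u} → ZFSet.{u}}
    (hU : U C (fun N A (p : α × ZFSet.{u}) => h N A p.1 p.2)) {M A : Set ZFSet.{u}} (hM : C M A)
    {p : α} (hp : In M p) {a b : ZFSet.{u}} (ha : a ∈ M)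
    (hmap : ∀ x ∈ a, h M A p x ∈ b)
    (hinj : ∀ x ∈ a, ∀ y ∈ a, h M A p x = h M A p y → x = y) : CardLe M a b := by
  have hU2 : U C (fun N A (q : α × ZFSet.{u}) => gr q.2 (h N A q.1)) := by
    refine U.gr U.id.snd ?_
    exact hU.comp (f := fun _ _ (q : (α × ZFSet.{u}) × ZFSet.{u}) => (q.1.1, q.2))
      (U.id.fst.fst.prodMk U.id.snd)
  refine ⟨gr a (h M A p), in_zfset.1 (hU2.closed hM (a := (p, a)) (by simp [hp, ha])), ?_, ?_⟩
  · refine ⟨?_, ?_⟩
    · intro z hz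
      obtain ⟨y, hy, rfl⟩ := mem_gr.1 hz
      exact pair_mem_prod.2 ⟨hy, hmap y hy⟩
    · intro z hz
      exact ⟨h M A p z, pair_mem_gr.2 ⟨hz, rfl⟩, fun w hw => (pair_mem_gr.1 hw).2⟩
  · intro y hy y' hy' z h1 h2
    exact hinj y hy y' hy' ((pair_mem_gr.1 h1).2.symm.trans (pair_mem_gr.1 h2).2)

/-- applying the injection -/
theorem app_of_cardLe {M : Set ZFSet.{u}} {a b : ZFSet.{u}} (h : CardLe M a b) :
    ∃ f ∈ M, (∀ x ∈ a, ZFSet.pair x (app f x) ∈ f) ∧ (∀ x ∈ a, app f x ∈ b) ∧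
      ∀ x ∈ a, ∀ y ∈ a, app f x = app f y → x = y := by
  obtain ⟨f, hf, hfun, hinj⟩ := h
  have h1 : ∀ x ∈ a, ZFSet.pair x (app f x) ∈ f := by
    intro x hx
    obtain ⟨w, hw, hw'⟩ := hfun.2 x hx
    rw [app_eq hw hw']
    exact hw
  refine ⟨f, hf, h1, fun x hx => (pair_mem_prod.1 (hfun.1 (h1 x hx))).2, ?_⟩
  intro x hx y hy hxy
  exact hinj x hx y hy _ (h1 x hx) (hxy ▸ h1 y hy)

theorem cardLe_sub {M A : Set ZFSet.{u}} (hM : IsZF M A) {x y z : ZFSet.{u}} (hx : x ∈ M)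
    (hxy : x ⊆ y) (h : CardLe M y z) : CardLe M x z := by
  obtain ⟨f, hf, -, h2, h3⟩ := app_of_cardLe h
  refine cardLe_of_u (C := CA) (h := fun _ _ (p : ZFSet.{u}) x => app p x) (by
    apply_rules (transparency := .reducible) (maxDepth := 400) using is_poly) hM
    (p := f) (in_zfset.2 hf) hx (fun t ht => h2 t (hxy ht)) ?_
  intro t ht s hs hts
  exact h3 t (hxy ht) s (hxy hs) hts

theorem cardLe_of_subset {M A : Set ZFSet.{u}} (hM : IsZF M A) {x y : ZFSet.{u}} (hx : x ∈ M)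
    (hxy : x ⊆ y) : CardLe M x y := by
  refine cardLe_of_u (C := CA) (h := fun _ _ (_ : ZFSet.{u}) x => x) (by
    apply_rules (transparency := .reducible) (maxDepth := 400) using is_poly) hM
    (p := x) (in_zfset.2 hx) hx (fun t ht => hxy ht) (fun _ _ _ _ h => h)

theorem cardLe_trans {M A : Set ZFSet.{u}} (hM : IsZF M A) {x y z : ZFSet.{u}} (hx : x ∈ M)
    (h : CardLe M x y) (h' : CardLe M y z) : CardLe M x z := by
  obtain ⟨f, hf, -, h2, h3⟩ := app_of_cardLe h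
  obtain ⟨g, hg, -, k2, k3⟩ := app_of_cardLe h'
  refine cardLe_of_u (C := CA) (h := fun _ _ (p : ZFSet.{u} × ZFSet.{u}) x => app p.2 (app p.1 x))
    (by apply_rules (transparency := .reducible) (maxDepth := 400) using is_poly) hM
    (p := (f, g)) (by simp [hf, hg]) hx (fun t ht => k2 _ (h2 t ht)) ?_
  intro t ht s hs hts
  exact h3 t ht s hs (k3 _ (h2 t ht) _ (h2 s hs) hts)

theorem cardLe_prod {M A : Set ZFSet.{u}} (hM : IsZF M A) {x y x' y' : ZFSet.{u}} (hx : x ∈ M)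
    (hy : y ∈ M) (h : CardLe M x x') (h' : CardLe M y y') :
    CardLe M (x.prod y) (x'.prod y') := by
  obtain ⟨f, hf, -, h2, h3⟩ := app_of_cardLe h
  obtain ⟨g, hg, -, k2, k3⟩ := app_of_cardLe h'
  have hxy : x.prod y ∈ M := in_zfset.1 ((U.prod (C := CA) (U.id (α := ZFSet.{u} × ZFSet.{u})).fst
    U.id.snd).closed hM (a := (x, y)) (by simp [hx, hy]))
  refine cardLe_of_u (C := CA) (h := fun _ _ (p : ZFSet.{u} × ZFSet.{u}) x =>
    ZFSet.pair (app p.1 (pfst x)) (app p.2 (psnd x)))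
    (by apply_rules (transparency := .reducible) (maxDepth := 400) using is_poly) hM
    (p := (f, g)) (by simp [hf, hg]) hxy ?_ ?_
  · intro t ht
    obtain ⟨a, ha, b, hb, rfl⟩ := mem_prod.1 ht
    simp only [pfst_pair, psnd_pair]
    exact pair_mem_prod.2 ⟨h2 a ha, k2 b hb⟩
  · intro t ht s hs hts
    obtain ⟨a, ha, b, hb, rfl⟩ := mem_prod.1 ht
    obtain ⟨a', ha', b', hb', rfl⟩ := mem_prod.1 hs
    simp only [pfst_pair, psnd_pair] at hts
    obtain ⟨h4, h5⟩ := pair_inj.1 hts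
    rw [h3 a ha a' ha' h4, k3 b hb b' hb' h5]

theorem cardLe_pow {M A : Set ZFSet.{u}} (hM : IsZF M A) {x y : ZFSet.{u}} (hx : x ∈ M)
    (h : CardLe M x y) : CardLe M (Helper66.SC.Pow M x) (Helper66.SC.Pow M y) := by
  obtain ⟨f, hf, -, h2, h3⟩ := app_of_cardLe h
  have hxy : Helper66.SC.Pow M x ∈ M := in_zfset.1 ((U.pow (C := CA) (U.id (α := ZFSet.{u}))).closed hM
    (a := x) (by simp [hx]))
  refine cardLe_of_u (C := CA) (h := fun _ _ (p : ZFSet.{u}) x =>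
    img x (fun t => app p t))
    (by apply_rules (transparency := .reducible) (maxDepth := 400) using is_poly) hM
    (p := f) (by simp [hf]) hxy ?_ ?_
  · intro t ht
    rw [mem_Pow] at ht ⊢
    refine ⟨?_, ?_⟩
    · exact in_zfset.1 (U.closed (C := CA) (f := fun _ _ (p : ZFSet.{u} × ZFSet.{u}) =>
        img p.2 (fun t => app p.1 t)) (by
          apply_rules (transparency := .reducible) (maxDepth := 400) using is_poly)
        hM (a := (f, t)) (by simp [hf, ht.1]))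
    · intro z hz
      obtain ⟨w, hw, rfl⟩ := mem_img.1 hz
      exact h2 w (ht.2 hw)
  · intro t ht s hs hts
    rw [mem_Pow] at ht hs
    have key : ∀ t s : ZFSet.{u}, t ⊆ x → s ⊆ x → img t (fun t => app f t) =
        img s (fun t => app f t) → t ⊆ s := by
      intro t s ht hs hts z hz
      have h4 : app f z ∈ img s (fun t => app f t) := hts ▸ mem_img.2 ⟨z, hz, rfl⟩
      obtain ⟨w, hw, h5⟩ := mem_img.1 h4
      rw [← h3 w (hs hw) z (ht hz) h5]
      exact hw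
    exact subset_antisymm (key t s ht.2 hs.2 hts) (key s t hs.2 ht.2 hts.symm)

/-- Cantor's theorem in `M`. -/
theorem not_cardLe_pow {M A : Set ZFSet.{u}} (hM : IsZF M A) {x : ZFSet.{u}} (hx : x ∈ M) :
    ¬ CardLe M (Helper66.SC.Pow M x) x := by
  intro h
  obtain ⟨f, hf, -, h2, h3⟩ := app_of_cardLe h
  have hP : Helper66.SC.Pow M x ∈ M := in_zfset.1 ((U.pow (C := CA) (U.id (α := ZFSet.{u}))).closed hM
    (a := x) (by simp [hx]))
  set D : ZFSet.{u} := x.sep (fun t => ∃ s ∈ Helper66.SC.Pow M x, app f s = t ∧ ¬ t ∈ s) with hD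
  have hDM : D ∈ M := in_zfset.1 (U.closed (C := CA) (f := fun _ _
    (p : (ZFSet.{u} × ZFSet.{u}) × ZFSet.{u}) =>
      p.1.1.sep (fun t => ∃ s ∈ p.1.2, app p.2 s = t ∧ ¬ t ∈ s)) (by
      apply_rules (transparency := .reducible) (maxDepth := 400) using is_poly)
      hM (a := ((x, Helper66.SC.Pow M x), f)) (by simp [hf, hx, hP]))
  have hDP : D ∈ Helper66.SC.Pow M x := mem_Pow.2 ⟨hDM, fun t ht => (mem_sep.1 ht).1⟩
  by_cases hd : app f D ∈ D
  · obtain ⟨_, s, hs, h4, h5⟩ := mem_sep.1 hd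
    rw [h3 s hs D hDP h4] at h5
    exact h5 hd
  · exact hd (mem_sep.2 ⟨h2 D hDP, D, hDP, rfl, hd⟩)

end Pool.Agent.Helper37.SC
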